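import Mathlib

set_option autoImplicit false

namespace Pool.Agent.Results.MP_9e9eb1_al.OddBZeroNonneg

open Finset MeasureTheory

variable {n q : ℕ}

/-- A real tensor of order `q + 1` and dimension `n`. -/
abbrev Tensor (q n : ℕ) : Type := (Fin (q + 1) → Fin n) → ℝ

/-- The tensor is symmetric. -/
def IsSymmetric (T : Tensor q n) : Prop :=
  ∀ (σ : Equiv.Perm (Fin (q + 1))) (j : Fin (q + 1) → Fin n), T (j ∘ σ) = T j

/-- The sum of the entries of the `i`-th row. -/
noncomputable def rowSum (T : Tensor q n) (i : Fin n) : ℝ :=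
  ∑ f : Fin q → Fin n, T (Fin.cons i f)

/-- `T` is a `B₀` tensor. -/
def IsBZero (T : Tensor q n) : Prop :=
  ∀ i, 0 ≤ rowSum T i ∧
    ∀ f : Fin q → Fin n, f ≠ (fun _ => i) → T (Fin.cons i f) ≤ rowSum T i / (n : ℝ) ^ q

/-- The vector `T x^{m-1}`. -/
noncomputable def app (T : Tensor q n) (x : Fin n → ℝ) (i : Fin n) : ℝ :=
  ∑ f : Fin q → Fin n, T (Fin.cons i f) * ∏ k, x (f k)

/-- `lam` is an H-eigenvalue of `T`. -/
def IsHEigenvalue (T : Tensor q n) (lam : ℝ) : Prop :=
  ∃ x : Fin n → ℝ, x ≠ 0 ∧ ∀ i, app T x i = lam * x i ^ q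

/-- The layer cake tensor. -/
noncomputable def Rm (β : Fin n → ℝ) (i : Fin n) (f : Fin q → Fin n) : ℝ :=
  ∫ t in Set.Ioc 0 (β i), ∏ k, (if t ≤ β (f k) then (1 : ℝ) else 0)

theorem meas (β : Fin n → ℝ) (f : Fin q → Fin n) :
    Measurable (fun t : ℝ => ∏ k, (if t ≤ β (f k) then (1 : ℝ) else 0)) := by
  refine Finset.measurable_prod _ fun k _ => ?_
  exact Measurable.ite measurableSet_Iic measurable_const measurable_const

theorem prod_mem (β : Fin n → ℝ) (f : Fin q → Fin n) (t : ℝ) :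
    0 ≤ (∏ k, (if t ≤ β (f k) then (1 : ℝ) else 0)) ∧
      (∏ k, (if t ≤ β (f k) then (1 : ℝ) else 0)) ≤ 1 := by
  constructor
  · exact prod_nonneg fun k _ => by split_ifs <;> norm_num
  · exact prod_le_one (fun k _ => by split_ifs <;> norm_num) (fun k _ => by split_ifs <;> norm_num)

theorem integrable (β : Fin n → ℝ) (f : Fin q → Fin n) (a b : ℝ) :
    IntegrableOn (fun t : ℝ => ∏ k, (if t ≤ β (f k) then (1 : ℝ) else 0)) (Set.Ioc a b) := by
  refine Measure.integrableOn_of_bounded (M := 1) (by simp) (meas β f).aestronglyMeasurable ?_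
  refine Filter.Eventually.of_forall fun t => ?_
  have := prod_mem β f t
  rw [Real.norm_eq_abs, abs_of_nonneg this.1]
  exact this.2

theorem Rm_le {β : Fin n → ℝ} (hβ : ∀ i, 0 ≤ β i) (i : Fin n) (f : Fin q → Fin n) :
    Rm β i f ≤ β i := by
  unfold Rm
  calc ∫ t in Set.Ioc 0 (β i), ∏ k, (if t ≤ β (f k) then (1 : ℝ) else 0)
      ≤ ∫ _t in Set.Ioc 0 (β i), (1 : ℝ) :=
        setIntegral_mono (integrable β f _ _) (by simp) (fun t => (prod_mem β f t).2)
    _ = β i := by simp [hβ i]

theorem le_Rm {β : Fin n → ℝ} (i : Fin n) (f : Fin q → Fin n) (c : ℝ) (h1 : c ≤ β i)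
    (h2 : ∀ k, c ≤ β (f k)) : c ≤ Rm β i f := by
  have hnn : 0 ≤ Rm β i f := setIntegral_nonneg measurableSet_Ioc fun t _ => (prod_mem β f t).1
  by_cases hc : 0 ≤ c
  · unfold Rm
    calc c = ∫ _t in Set.Ioc 0 c, (1 : ℝ) := by simp [hc]
      _ = ∫ t in Set.Ioc 0 c, ∏ k, (if t ≤ β (f k) then (1 : ℝ) else 0) := by
          refine setIntegral_congr_fun measurableSet_Ioc fun t ht => ?_
          rw [prod_congr rfl (fun k _ => if_pos (ht.2.trans (h2 k)))]
          simp
      _ ≤ ∫ t in Set.Ioc 0 (β i), ∏ k, (if t ≤ β (f k) then (1 : ℝ) else 0) := by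
          refine setIntegral_mono_set (integrable β f _ _) ?_ ?_
          · exact Filter.Eventually.of_forall fun t => (prod_mem β f t).1
          · exact (Set.Ioc_subset_Ioc_right h1).eventuallyLE
  · push Not at hc
    linarith

theorem Rm_form (hq : Even q) (β : Fin n → ℝ) (i : Fin n) (x : Fin n → ℝ) :
    0 ≤ ∑ f : Fin q → Fin n, Rm β i f * ∏ k, x (f k) := by
  have h1 : ∑ f : Fin q → Fin n, Rm β i f * ∏ k, x (f k) =
      ∫ t in Set.Ioc 0 (β i), (∑ j, (if t ≤ β j then (1 : ℝ) else 0) * x j) ^ q := by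
    unfold Rm
    simp_rw [← integral_mul_const]
    rw [← integral_finsetSum]
    · refine integral_congr_ae (Filter.Eventually.of_forall fun t => ?_)
      simp only
      rw [Fintype.sum_pow]
      refine sum_congr rfl fun f _ => ?_
      rw [prod_mul_distrib]
    · intro f _
      exact (integrable β f _ _).mul_const _
  rw [h1]
  exact setIntegral_nonneg measurableSet_Ioc fun t _ => hq.pow_nonneg _

theorem offdiag {T : Tensor q n} (hs : IsSymmetric T) (hB : IsBZero T) (i : Fin n)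
    (f : Fin q → Fin n) (hf : f ≠ fun _ => i) (k : Fin q) :
    T (Fin.cons i f) ≤ rowSum T (f k) / (n : ℝ) ^ q := by
  have h1 := hs (Equiv.swap 0 k.succ) (Fin.cons i f)
  set j : Fin (q + 1) → Fin n := (Fin.cons i f : Fin (q + 1) → Fin n) ∘ Equiv.swap 0 k.succ with hj
  have hj0 : j 0 = f k := by simp [hj]
  have hjc : j = Fin.cons (f k) (fun l => j l.succ) := by
    funext l
    refine Fin.cases ?_ (fun l => ?_) l
    · rw [hj0, Fin.cons_zero]
    · rw [Fin.cons_succ]
  rw [← h1, hjc]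
  refine (hB (f k)).2 _ ?_
  intro hcon
  -- all indices would be equal
  have hall : ∀ l, j l = f k := by
    intro l
    refine Fin.cases hj0 (fun l => ?_) l
    exact congrFun hcon l
  have hall' : ∀ l, (Fin.cons i f : Fin (q + 1) → Fin n) l = f k := by
    intro l
    have h2 := hall (Equiv.swap 0 k.succ l)
    rw [hj, Function.comp, Equiv.swap_apply_self] at h2
    exact h2
  apply hf
  funext l
  have h3 := hall' 0
  have h4 := hall' l.succ
  rw [Fin.cons_zero] at h3
  rw [Fin.cons_succ] at h4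
  rw [h3, h4]

/-- Every H-eigenvalue of a symmetric `B₀` tensor of odd order is nonnegative. -/
theorem result (p n : ℕ) (T : Tensor (2 * p) n) (hs : IsSymmetric T) (hB : IsBZero T) (lam : ℝ)
    (hlam : IsHEigenvalue T lam) : 0 ≤ lam := by
  obtain ⟨x, hx0, hx⟩ := hlam
  have hq : Even (2 * p) := even_two_mul p
  -- the index of a coordinate of maximal modulus
  have hne : Nonempty (Fin n) := by
    by_contra h
    rw [not_nonempty_iff] at h
    exact hx0 (Subsingleton.elim _ _)
  obtain ⟨i, hi⟩ := Finite.exists_max (fun i => |x i|)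
  have hxi : x i ≠ 0 := by
    intro h
    apply hx0
    funext j
    have := hi j
    simp only [h, abs_zero] at this
    simpa using this
  have hn : (0 : ℝ) < (n : ℝ) ^ (2 * p) := by
    have : 0 < n := Fin.pos_iff_nonempty.mpr hne
    positivity
  set β : Fin n → ℝ := fun i => rowSum T i / (n : ℝ) ^ (2 * p) with hβ
  have hβ0 : ∀ i, 0 ≤ β i := fun i => div_nonneg (hB i).1 hn.le
  have hpow : 0 < x i ^ (2 * p) := hq.pow_pos hxi
  -- the decomposition
  have h1 : app T x i = ∑ f : Fin (2 * p) → Fin n, (T (Fin.cons i f) - Rm β i f) * ∏ k, x (f k)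
      + ∑ f : Fin (2 * p) → Fin n, Rm β i f * ∏ k, x (f k) := by
    unfold app
    rw [← sum_add_distrib]
    exact sum_congr rfl fun f _ => by ring
  have h2 := Rm_form hq β i x
  have h3 : (∑ f : Fin (2 * p) → Fin n, (T (Fin.cons i f) - Rm β i f)) * x i ^ (2 * p) ≤
      ∑ f : Fin (2 * p) → Fin n, (T (Fin.cons i f) - Rm β i f) * ∏ k, x (f k) := by
    rw [sum_mul]
    refine sum_le_sum fun f _ => ?_
    by_cases hf : f = fun _ => i
    · subst hf
      simp
    · have h4 : T (Fin.cons i f) - Rm β i f ≤ 0 := by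
        have := le_Rm (β := β) i f (T (Fin.cons i f)) ((hB i).2 f hf)
          (fun k => offdiag hs hB i f hf k)
        linarith
      have h5 : ∏ k, x (f k) ≤ x i ^ (2 * p) := by
        calc ∏ k, x (f k) ≤ |∏ k, x (f k)| := le_abs_self _
          _ = ∏ k, |x (f k)| := abs_prod _ _
          _ ≤ ∏ _k : Fin (2 * p), |x i| := prod_le_prod (fun _ _ => abs_nonneg _) fun k _ => hi (f k)
          _ = x i ^ (2 * p) := by
            rw [prod_const, card_univ, Fintype.card_fin, hq.pow_abs]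
      exact mul_le_mul_of_nonpos_left h5 h4
  have h6 : 0 ≤ ∑ f : Fin (2 * p) → Fin n, (T (Fin.cons i f) - Rm β i f) := by
    rw [sum_sub_distrib]
    have h7 : ∑ f : Fin (2 * p) → Fin n, Rm β i f ≤ ∑ _f : Fin (2 * p) → Fin n, β i :=
      sum_le_sum fun f _ => Rm_le hβ0 i f
    have h8 : ∑ _f : Fin (2 * p) → Fin n, β i = rowSum T i := by
      rw [sum_const, card_univ, Fintype.card_fun, Fintype.card_fin, Fintype.card_fin, nsmul_eq_mul,
        hβ]
      push_cast
      field_simp
    have h9 : rowSum T i = ∑ f : Fin (2 * p) → Fin n, T (Fin.cons i f) := rfl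
    linarith
  have h10 := mul_nonneg h6 hpow.le
  rw [hx i] at h1
  have h11 : 0 ≤ lam * x i ^ (2 * p) := by linarith
  exact nonneg_of_mul_nonneg_left h11 hpow

end Pool.Agent.Results.MP_9e9eb1_al.OddBZeroNonneg
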